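import Mathlib

/-!
Stationary winning strategies for Player P in the games Sp and Ssp.
-/

namespace Pool.Agent.Lib.MP_fe6d4f_gt.Sp

open Filter Topology

/-- Player P has a stationary winning strategy in `Sp(X)`. -/
def WinsSp (X : Type*) (τ : TopologicalSpace X) : Prop :=
  ∃ s : Set X → X, (∀ U, IsOpen U → U.Nonempty → s U ∈ U) ∧
    ∀ U : ℕ → Set X, (∀ n, IsOpen (U n) ∧ (U n).Nonempty) →
      ∃ x : X, ∀ V, IsOpen V → x ∈ V → {n | s (U n) ∈ V}.Infinite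

/-- Player P has a stationary winning strategy in `Ssp(X)`. -/
def WinsSsp (X : Type*) (τ : TopologicalSpace X) : Prop :=
  ∃ s : Set X → X, (∀ U, IsOpen U → U.Nonempty → s U ∈ U) ∧
    ∀ U : ℕ → Set X, (∀ n, IsOpen (U n) ∧ (U n).Nonempty) →
      ∃ (x : X) (φ : ℕ → ℕ), StrictMono φ ∧ Tendsto (fun n => s (U (φ n))) atTop (𝓝 x)

end Pool.Agent.Lib.MP_fe6d4f_gt.Sp
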