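import Pool.Agent.Lib.MP_fe6d4f_gt.Sp.Test

/-!
A lower bound for the size of a space with a stationary winning strategy.
-/

namespace Pool.Agent.Lib.MP_fe6d4f_gt.Sp

open Set Cardinal Filter Topology

universe u

variable {X : Type u} [TopologicalSpace X]

/-- The data of the construction. -/
structure Sys (X : Type u) [TopologicalSpace X] where
  s : Set X → X
  hs : ∀ U, IsOpen U → U.Nonempty → s U ∈ U
  hw : ∀ U : ℕ → Set X, (∀ n, IsOpen (U n) ∧ (U n).Nonempty) →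
      ∃ x : X, ∀ V, IsOpen V → x ∈ V → {n | s (U n) ∈ V}.Infinite
  ρ : ℕ → Cardinal.{u}
  r0 : ℵ₀ ≤ ρ 0
  r1 : ∀ n, pw (pw (pw (pw (ρ n)))) ≤ ρ (n + 1)
  𝒯 : Set X → ℕ → Set (Set X × Set X)
  t1 : ∀ W n, #(𝒯 W n) ≤ pw (pw (pw (ρ n)))
  t2 : ∀ W n, ∀ T ∈ 𝒯 W n, IsTest W T
  t3 : ∀ W n, IsOpen W → W.Nonempty → ∀ E : Set X, #E ≤ ρ n → ∃ T ∈ 𝒯 W n, Disjoint E T.2

theorem le_pw (c : Cardinal.{u}) : c ≤ pw c := (cantor c).le

theorem pw_mono {a b : Cardinal.{u}} (h : a ≤ b) : pw a ≤ pw b :=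
  power_le_power_left two_ne_zero h

namespace Sys

variable (S : Sys X)

theorem mono : Monotone S.ρ := monotone_nat_of_le_succ fun n =>
  (le_pw _).trans ((le_pw _).trans ((le_pw _).trans ((le_pw _).trans (S.r1 n))))

theorem inf (n : ℕ) : ℵ₀ ≤ S.ρ n := S.r0.trans (S.mono n.zero_le)

theorem inf3 (n : ℕ) : ℵ₀ ≤ pw (pw (pw (S.ρ n))) :=
  (S.inf n).trans ((le_pw _).trans ((le_pw _).trans (le_pw _)))

/-- Tests of level at most `n`. -/
def L : ℕ → Set (Set X × Set X)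
  | 0 => S.𝒯 univ 0
  | n + 1 => L n ∪ ⋃ T ∈ L n, S.𝒯 T.1 (n + 1)

theorem L_mono : Monotone S.L := monotone_nat_of_le_succ fun _ => subset_union_left

theorem L_card : ∀ n, #(S.L n) ≤ pw (pw (pw (S.ρ n)))
  | 0 => S.t1 _ _
  | n + 1 => by
    have a := (L_card n).trans (pw_mono (pw_mono (pw_mono (S.mono n.le_succ))))
    have b := S.inf3 (n + 1)
    refine (mk_union_le _ _).trans ((add_le_add a ((mk_bU fun T _ => S.t1 T.1 (n + 1)).trans
      ((mul_le_mul_left a _).trans (mul_eq_self b).le))).trans (add_eq_self b).le)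

theorem L_test : ∀ n, ∀ T ∈ S.L n, ∃ W, IsTest W T
  | 0 => fun T h => ⟨_, S.t2 _ _ T h⟩
  | n + 1 => fun T h => h.elim (L_test n T) fun h => by
    obtain ⟨R, -, h⟩ := mem_iUnion₂.1 h
    exact ⟨_, S.t2 _ _ T h⟩

/-- Recorded open sets. -/
def O (n : ℕ) : Set (Set X) := Prod.snd '' S.L n ∪ (fun T => (closure T.1)ᶜ) '' S.L n

theorem O_mono : Monotone S.O := fun _ _ h =>
  union_subset_union (image_mono (S.L_mono h)) (image_mono (S.L_mono h))

theorem O_card (n : ℕ) : #(S.O n) ≤ pw (pw (pw (S.ρ n))) :=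
  (mk_union_le _ _).trans ((add_le_add (mk_image_le.trans (S.L_card n))
    (mk_image_le.trans (S.L_card n))).trans (add_eq_self (S.inf3 n)).le)

theorem O_open {n : ℕ} {V : Set X} (h : V ∈ S.O n) : IsOpen V := by
  rcases h with ⟨T, h, rfl⟩ | ⟨T, h, rfl⟩
  · exact (S.L_test n T h).choose_spec.2.2.2.1
  · exact isClosed_closure.isOpen_compl

/-- Branches. -/
def Br (g : ℕ → Set X × Set X) : Prop :=
  g 0 ∈ S.𝒯 univ 0 ∧ ∀ n, g (n + 1) ∈ S.𝒯 (g n).1 (n + 1)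

variable {S}

theorem Br.mem {g : ℕ → Set X × Set X} (h : S.Br g) : ∀ n, g n ∈ S.L n
  | 0 => h.1
  | n + 1 => Or.inr (mem_iUnion₂.2 ⟨_, Br.mem h n, h.2 n⟩)

theorem Br.op {g : ℕ → Set X × Set X} (h : S.Br g) (n : ℕ) :
    IsOpen (g n).1 ∧ (g n).1.Nonempty :=
  let ⟨_, a⟩ := S.L_test n _ (h.mem n); ⟨a.1, a.2.1⟩

theorem Br.cl {g : ℕ → Set X × Set X} (h : S.Br g) (n : ℕ) : closure (g n).1 ⊆ (g n).2 :=
  let ⟨_, a⟩ := S.L_test n _ (h.mem n); a.2.2.1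

theorem Br.anti {g : ℕ → Set X × Set X} (h : S.Br g) : Antitone fun n => (g n).1 :=
  antitone_nat_of_succ_le fun n =>
    subset_closure.trans ((h.cl _).trans (S.t2 _ _ _ (h.2 n)).2.2.2.2)

theorem Br.z {g : ℕ → Set X × Set X} (h : S.Br g) {j k : ℕ} (e : j ≤ k) :
    S.s (g k).1 ∈ (g j).1 := h.anti e (S.hs _ (h.op k).1 (h.op k).2)

variable (S)

/-- The trace of level `n`. -/
def tr (n : ℕ) (g : ℕ → Set X × Set X) : Set (ULift.{u} ℕ × Set X) :=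
  {a | a.2 ∈ S.O n ∧ S.s (g a.1.down).1 ∈ a.2}

theorem tr_mono {n m : ℕ} (e : n ≤ m) {g g' : ℕ → Set X × Set X} (h : S.tr m g = S.tr m g') :
    S.tr n g = S.tr n g' := by
  ext a
  have := Set.ext_iff.1 h a
  exact and_congr_right fun k => ⟨fun x => (this.1 ⟨S.O_mono e k, x⟩).2,
    fun x => (this.2 ⟨S.O_mono e k, x⟩).2⟩

/-- Good traces. -/
def Good (n : ℕ) (t : Set (ULift.{u} ℕ × Set X)) : Prop :=
  ∀ E : ℕ → Set X, (∀ j, #(E j) ≤ S.ρ j) →
    ∃ g, S.Br g ∧ S.tr n g = t ∧ ∀ᶠ j in atTop, Disjoint (E j) (g j).2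

theorem merge : ∃ E : ℕ → Set X, (∀ j, #(E j) ≤ S.ρ j) ∧ ∀ g, S.Br g →
    (∀ᶠ j in atTop, Disjoint (E j) (g j).2) → ∀ n, S.Good n (S.tr n g) := by
  have h : ∀ n t, ∃ E : ℕ → Set X, (∀ j, #(E j) ≤ S.ρ j) ∧ (¬ S.Good n t →
      ∀ g, S.Br g → S.tr n g = t → ¬ ∀ᶠ j in atTop, Disjoint (E j) (g j).2) := fun n t => by
    by_cases c : S.Good n t
    · exact ⟨fun _ => ∅, fun _ => by simp, fun e => (e c).elim⟩
    · unfold Good at c
      push Not at c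
      obtain ⟨E, a, b⟩ := c
      exact ⟨E, a, fun _ g x y => not_eventually.2 (b g x y)⟩
  choose w w1 w2 using h
  refine ⟨fun j => ⋃ n, ⋃ t ∈ {t | n < j ∧ t ⊆ Set.univ ×ˢ S.O n}, w n t j,
    fun j => mk_nU (S.inf j) fun n => (mk_bU fun t _ => w1 n t j).trans ?_, fun g hg h n => ?_⟩
  · by_cases c : n < j
    · have : #{t : Set (ULift.{u} ℕ × Set X) | n < j ∧ t ⊆ Set.univ ×ˢ S.O n} ≤ S.ρ j := by
        refine (mk_le_mk_of_subset (t := 𝒫 (Set.univ ×ˢ S.O n)) fun _ h => h.2).trans ?_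
        rw [mk_powerset, mk_setProd]
        refine (pw_mono ?_).trans ((S.r1 n).trans (S.mono c))
        simp only [mk_univ, mk_eq_aleph0]
        exact (mul_le_mul' (S.inf3 n) (S.O_card n)).trans (mul_eq_self (S.inf3 n)).le
      exact (mul_le_mul_left this _).trans (mul_eq_self (S.inf j)).le
    · simp [c]
  · by_contra c
    refine w2 n _ c g hg rfl ?_
    filter_upwards [h, eventually_gt_atTop n] with j a b
    exact a.mono_left fun x hx => mem_iUnion.2 ⟨n, mem_iUnion₂.2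
      ⟨S.tr n g, ⟨b, fun _ k => ⟨trivial, k.1⟩⟩, hx⟩⟩

/-- Possible accumulation points. -/
def A (n : ℕ) (g : ℕ → Set X × Set X) : Set X :=
  {x | ∀ V ∈ S.O n, x ∈ V → {k | S.s (g k).1 ∈ V}.Infinite}

theorem split {n : ℕ} {t : Set (ULift.{u} ℕ × Set X)} (ht : S.Good n t) {μ : Cardinal.{u}} {m : ℕ}
    (hμ : μ ≤ S.ρ m) : ∃ n' > n, ∃ F : Set (ℕ → Set X × Set X), μ ≤ #F ∧
      (∀ g ∈ F, S.Br g ∧ S.tr n g = t ∧ S.Good n' (S.tr n' g)) ∧
      F.Pairwise fun g g' => Disjoint (S.A n' g) (S.A n' g') := by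
  by_contra hn
  push Not at hn
  have hz : ∀ j, ∃ F : Set (ℕ → Set X × Set X), Maximal (fun F =>
      (∀ g ∈ F, S.Br g ∧ S.tr n g = t ∧ S.Good j (S.tr j g)) ∧
      F.Pairwise fun g g' => Disjoint (S.A j g) (S.A j g')) F := fun j => by
    refine zorn_subset _ fun c hc hch => ⟨⋃₀ c, ⟨?_, ?_⟩, fun _ => subset_sUnion_of_mem⟩
    · rintro g ⟨F, a, b⟩
      exact (hc a).1 g b
    · exact (pairwise_sUnion hch.directedOn).2 fun F a => (hc a).2
  choose F hF using hz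
  obtain ⟨E, E1, E2⟩ := S.merge
  have hc : ∀ j, n < j → #(F j) ≤ μ := fun j hj =>
    le_of_not_ge fun e => hn j hj (F j) e (hF j).prop.1 (hF j).prop.2
  let D : ℕ → Set X := fun j => ⋃ k : ℕ, (fun g => S.s (g k).1) '' {g | g ∈ F j ∧ n < j ∧ m ≤ j}
  have hD : ∀ j, #(D j) ≤ S.ρ j := fun j => mk_nU (S.inf j) fun k => mk_image_le.trans <| by
    by_cases c : n < j ∧ m ≤ j
    · exact (mk_le_mk_of_subset fun _ h => h.1).trans ((hc j c.1).trans (hμ.trans (S.mono c.2)))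
    · simp [c]
  obtain ⟨g, g1, g2, g3⟩ := ht (fun j => E j ∪ D j) fun j =>
    (mk_union_le _ _).trans ((add_le_add (E1 j) (hD j)).trans (add_eq_self (S.inf j)).le)
  have g4 := E2 g g1 (g3.mono fun _ h => h.mono_left subset_union_left)
  obtain ⟨j, j1, j2, j3⟩ := (g3.and ((eventually_gt_atTop n).and (eventually_ge_atTop m))).exists
  have key : ∀ g' ∈ F j, Disjoint (S.A j g) (S.A j g') := fun g' h' => by
    refine disjoint_left.2 fun x a b => ?_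
    have x1 : x ∈ closure (g j).1 := by
      by_contra c
      obtain ⟨k, k1, k2⟩ := (a _ (Or.inr ⟨_, g1.mem j, rfl⟩) c).exists_gt j
      exact k1 (subset_closure (g1.z k2.le))
    obtain ⟨k, hk⟩ := (b _ (Or.inl ⟨_, g1.mem j, rfl⟩) (g1.cl j x1)).nonempty
    exact disjoint_left.1 j1 (Or.inr (mem_iUnion.2 ⟨k, g', ⟨h', j2, j3⟩, rfl⟩)) hk
  have hg : g ∈ F j := (hF j).mem_of_prop_insert ⟨by
    rintro g' (rfl | h)
    · exact ⟨g1, g2, g4 j⟩
    · exact (hF j).prop.1 g' h,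
    (hF j).prop.2.insert fun g' h _ => ⟨key g' h, (key g' h).symm⟩⟩
  obtain ⟨x, hx⟩ := S.hw (fun k => (g k).1) g1.op
  have : x ∈ S.A j g := fun V a b => hx V (S.O_open a) b
  exact disjoint_left.1 (key g hg) this this

theorem start [Nonempty X] : ∃ g, S.Br g ∧ S.Good 0 (S.tr 0 g) := by
  obtain ⟨E, E1, E2⟩ := S.merge
  have h : ∀ n (W : {W : Set X // IsOpen W ∧ W.Nonempty}), ∃ T : Set X × Set X,
      T ∈ S.𝒯 W n ∧ Disjoint (E n) T.2 := fun n W => S.t3 W n W.2.1 W.2.2 _ (E1 n)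
  choose f f1 f2 using h
  let W : ℕ → {W : Set X // IsOpen W ∧ W.Nonempty} := fun n => Nat.rec
    ⟨univ, isOpen_univ, univ_nonempty⟩
    (fun n W => ⟨(f n W).1, (S.t2 _ _ _ (f1 n W)).1, (S.t2 _ _ _ (f1 n W)).2.1⟩) n
  have hb : S.Br fun n => f n (W n) := ⟨f1 0 (W 0), fun n => f1 (n + 1) (W (n + 1))⟩
  exact ⟨_, hb, E2 _ hb (Eventually.of_forall fun n => f2 n _) 0⟩

theorem low [Nonempty X] (ι : ℕ → Type u) (hι : ∀ m, #(ι m) ≤ S.ρ (m + 1)) :
    #(∀ m, ι m) ≤ #X := by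
  classical
  let St := {a : ℕ × (ℕ → Set X × Set X) // S.Br a.2 ∧ S.Good a.1 (S.tr a.1 a.2)}
  have h : ∀ m (a : St), ∃ e : ι m → St, (∀ i, a.1.1 < (e i).1.1 ∧
      S.tr a.1.1 (e i).1.2 = S.tr a.1.1 a.1.2) ∧ ∀ i j, i ≠ j →
      Disjoint (S.A (e i).1.1 (e i).1.2) (S.A (e j).1.1 (e j).1.2) := fun m a => by
    obtain ⟨n, n1, F, F1, F2, F3⟩ := S.split a.2.2 (hι m)
    obtain ⟨e⟩ := (le_def _ _).1 F1
    exact ⟨fun i => ⟨(n, e i), (F2 _ (e i).2).1, (F2 _ (e i).2).2.2⟩,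
      fun i => ⟨n1, (F2 _ (e i).2).2.1⟩,
      fun i j c => F3 (e i).2 (e j).2 fun k => c (e.injective (Subtype.ext k))⟩
  choose e e1 e2 using h
  obtain ⟨g0, h0⟩ := S.start
  let st : (∀ m, ι m) → ℕ → St := fun h m => Nat.rec ⟨(0, g0), h0⟩ (fun m a => e m a (h m)) m
  have s1 : ∀ h m, st h (m + 1) = e m (st h m) (h m) := fun _ _ => rfl
  have s2 : ∀ h m k, m ≤ k → (st h m).1.1 ≤ (st h k).1.1 ∧
      S.tr (st h m).1.1 (st h k).1.2 = S.tr (st h m).1.1 (st h m).1.2 := fun h m k hk => by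
    induction k, hk using Nat.le_induction with
    | base => exact ⟨le_rfl, rfl⟩
    | succ k _ ih =>
      exact ⟨ih.1.trans (e1 k _ (h k)).1.le, (S.tr_mono ih.1 (e1 k _ (h k)).2).trans ih.2⟩
  choose x hx using fun h => S.hw (fun k => ((st h k).1.2 k).1) fun k => (st h k).2.1.op k
  have s3 : ∀ h m, x h ∈ S.A (st h m).1.1 (st h m).1.2 := fun h m V a b => by
    refine ((hx h V (S.O_open a) b).sdiff (finite_lt_nat m)).mono fun k hk => ?_
    exact ((Set.ext_iff.1 (s2 h m k (not_lt.1 hk.2)).2 (⟨k⟩, V)).1 ⟨a, hk.1⟩).2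
  refine mk_le_of_injective (f := x) fun h h' c => ?_
  have s4 : ∀ m, st h m = st h' m → h m = h' m := fun m k => by
    by_contra d
    have := e2 m (st h m) _ _ d
    rw [← s1, k, ← s1] at this
    exact disjoint_left.1 this (s3 h (m + 1)) (by rw [c]; exact s3 h' (m + 1))
  have s5 : ∀ m, st h m = st h' m := fun m => by
    induction m with
    | zero => rfl
    | succ m ih => rw [s1, s1, s4 m ih, ih]
  exact funext fun m => s4 m (s5 m)

end Sys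

end Pool.Agent.Lib.MP_fe6d4f_gt.Sp
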