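import Pool.Agent.Lib.MP_fe6d4f_gt.Sp.Low
import Pool.Agent.Lib.MP_fe6d4f_gt.Sp.Defs

/-!
The cardinality of a group with a stationary winning strategy.
-/

namespace Pool.Agent.Lib.MP_fe6d4f_gt.Sp

open Set Cardinal Filter Topology

universe u

theorem prod_le {X : Type u} [τ : TopologicalSpace X] [T3Space X] [Nonempty X] (h : WinsSp X τ)
    {σ : Cardinal.{u}} (hσ : σ.IsStrongLimit) (h0 : ℵ₀ < σ)
    (hU : ∀ U : Set X, IsOpen U → U.Nonempty → σ ≤ #U) (ι : ℕ → Type u) (hι : ∀ m, #(ι m) < σ) :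
    #(∀ m, ι m) ≤ #X := by
  obtain ⟨s, hs, hw⟩ := h
  let ρ : ℕ → Cardinal.{u} := fun n =>
    Nat.rec ℵ₀ (fun n r => max (pw (pw (pw (pw r)))) #(ι n)) n
  have p : ∀ {c}, c < σ → pw c < σ := fun h => hσ.two_power_lt h
  have r1 : ∀ n, ρ n < σ := fun n => by
    induction n with
    | zero => exact h0
    | succ n ih => exact max_lt (p (p (p (p ih)))) (hι n)
  have r2 : ∀ n, ℵ₀ ≤ ρ n := fun n => by
    induction n with
    | zero => exact le_rfl
    | succ n ih => exact (ih.trans ((le_pw _).trans ((le_pw _).trans ((le_pw _).trans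
        (le_pw _))))).trans (le_max_left _ _)
  have t : ∀ (W : Set X) n, ∃ 𝒯 : Set (Set X × Set X), #𝒯 ≤ pw (pw (pw (ρ n))) ∧
      (∀ T ∈ 𝒯, IsTest W T) ∧ (IsOpen W → W.Nonempty →
        ∀ E : Set X, #E ≤ ρ n → ∃ T ∈ 𝒯, Disjoint E T.2) := fun W n => by
    by_cases c : IsOpen W ∧ W.Nonempty
    · obtain ⟨T, a, b, d⟩ := tests c.1 (r2 n) ((p (p (p (r1 n)))).le.trans (hU W c.1 c.2))
      exact ⟨T, a, b, fun _ _ => d⟩
    · exact ⟨∅, by simp, by simp, fun a b => (c ⟨a, b⟩).elim⟩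
  choose T t1 t2 t3 using t
  exact Sys.low ⟨s, hs, hw, ρ, le_rfl, fun _ => le_max_left _ _, T, t1, t2, t3⟩ ι
    fun _ => le_max_right _ _

theorem perfect {X : Type u} [τ : TopologicalSpace X] [T3Space X] [Nonempty X] (h : WinsSp X τ)
    (hU : ∀ U : Set X, IsOpen U → U.Nonempty → U.Nontrivial) : 𝔠 ≤ #X := by
  obtain ⟨s, hs, hw⟩ := h
  let Op := {W : Set X // IsOpen W ∧ W.Nonempty}
  have h1 : ∀ W : Op, ∃ f : Bool → Op, (∀ b, (f b).1 ⊆ W.1) ∧
      ∀ b b', b ≠ b' → Disjoint (closure (f b).1) (closure (f b').1) := fun W => by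
    obtain ⟨a, ha, b, hb, e⟩ := hU W W.2.1 W.2.2
    obtain ⟨A, a1, a2, B, b1, b2, d⟩ := exists_open_nhds_disjoint_closure e
    refine ⟨fun x => if x then ⟨A ∩ W, a2.inter W.2.1, a, a1, ha⟩
      else ⟨B ∩ W, b2.inter W.2.1, b, b1, hb⟩, ?_, ?_⟩
    · rintro (_ | _) <;> exact inter_subset_right
    · have k1 := closure_mono (inter_subset_left (s := A) (t := W.1))
      have k2 := closure_mono (inter_subset_left (s := B) (t := W.1))
      rintro (_ | _) (_ | _) n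
      exacts [(n rfl).elim, d.symm.mono k2 k1, d.mono k1 k2, (n rfl).elim]
  choose f f1 f2 using h1
  let st : (ℕ → Bool) → ℕ → Op := fun h m =>
    Nat.rec ⟨univ, isOpen_univ, univ_nonempty⟩ (fun m W => f W (h m)) m
  have s1 : ∀ h m, st h (m + 1) = f (st h m) (h m) := fun _ _ => rfl
  have s2 : ∀ h, Antitone fun m => (st h m).1 := fun h =>
    antitone_nat_of_succ_le fun m => f1 _ _
  choose x hx using fun h => hw (fun k => (st h k).1) fun k => (st h k).2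
  have s3 : ∀ h m, x h ∈ closure (st h m).1 := fun h m => by
    by_contra c
    obtain ⟨k, k1, k2⟩ := (hx h _ isClosed_closure.isOpen_compl c).exists_gt m
    exact k1 (subset_closure (s2 h k2.le (hs _ (st h k).2.1 (st h k).2.2)))
  have : Function.Injective x := fun h h' c => by
    have s4 : ∀ m, st h m = st h' m → h m = h' m := fun m k => by
      by_contra d
      have := f2 (st h m) _ _ d
      rw [← s1, k, ← s1] at this
      exact disjoint_left.1 this (s3 h (m + 1)) (by rw [c]; exact s3 h' (m + 1))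
    have s5 : ∀ m, st h m = st h' m := fun m => by
      induction m with
      | zero => rfl
      | succ m ih => rw [s1, s1, s4 m ih, ih]
    exact funext fun m => s4 m (s5 m)
  simpa using Cardinal.lift_mk_le'.2 ⟨⟨x, this⟩⟩

theorem big_open {G : Type u} [AddCommGroup G] [τ : TopologicalSpace G] [IsTopologicalAddGroup G]
    [Infinite G] (h : WinsSp G τ) {U : Set G} (hU : IsOpen U) (hn : U.Nonempty) : #G ≤ #U := by
  obtain ⟨s, hs, hw⟩ := h
  obtain ⟨u, hu⟩ := hn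
  have hc : ∃ F : Finset G, ∀ g, ∃ x ∈ F, g - x ∈ U := by
    by_contra c
    push Not at c
    obtain ⟨x, -, hx⟩ := exists_seq_of_forall_finset_exists (fun _ : G => True)
      (fun a b => b - a + u ∉ U) fun F _ => by
        classical
        obtain ⟨g, hg⟩ := c (F.image (· - u))
        exact ⟨g, trivial, fun a ha e => hg _ (Finset.mem_image_of_mem _ ha)
          (by rwa [← sub_add])⟩
    have k : Continuous fun p : (G × G) × G × G => p.1.1 - p.1.2 - (p.2.1 - p.2.2) + u := by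
      fun_prop
    have k2 := k.continuousAt (x := 0) |>.preimage_mem_nhds (hU.mem_nhds (by simpa using hu))
    obtain ⟨A, hA, B, hB, k3⟩ := mem_nhds_prod_iff.1 k2
    obtain ⟨A1, h1, A2, h2, k4⟩ := mem_nhds_prod_iff.1 hA
    obtain ⟨B1, h3, B2, h4, k5⟩ := mem_nhds_prod_iff.1 hB
    obtain ⟨V, v1, v2, v3⟩ := mem_nhds_iff.1 (inter_mem (inter_mem h1 h2) (inter_mem h3 h4))
    have o : ∀ y : G, IsOpen {z | z - y ∈ V} := fun y => v2.preimage (by fun_prop)
    have o2 : ∀ y : G, y ∈ {z | z - y ∈ V} := fun y => by simpa using v3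
    obtain ⟨y, hy⟩ := hw (fun n => {z | z - x n ∈ V}) fun n => ⟨o _, _, o2 _⟩
    have hi := hy _ (o y) (o2 y)
    obtain ⟨i, hi1⟩ := hi.nonempty
    obtain ⟨n, hn1, hn2⟩ := hi.exists_gt i
    have a0 : ∀ j, s {z | z - x j ∈ V} - x j ∈ V := fun j =>
      hs {z | z - x j ∈ V} (o _) ⟨_, o2 _⟩
    have b1 : s {z | z - x i ∈ V} - y ∈ V := hi1
    have b2 : s {z | z - x n ∈ V} - y ∈ V := hn1
    refine hx i n hn2 ?_
    have := k3 (mk_mem_prod (k4 (mk_mem_prod (v1 b2).1.1 (v1 (a0 n)).1.2))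
      (k5 (mk_mem_prod (v1 b1).2.1 (v1 (a0 i)).2.2)))
    simp only [mem_preimage] at this
    convert this using 2
    abel
  obtain ⟨F, hF⟩ := hc
  have : #G ≤ #(F : Set G) * #U := by
    rw [← mk_univ]
    refine (mk_le_mk_of_subset (t := ⋃ x ∈ (F : Set G), (· + x) '' U) fun g _ => ?_).trans
      (mk_bU fun _ _ => mk_image_le)
    obtain ⟨x, a, b⟩ := hF g
    exact mem_iUnion₂.2 ⟨x, a, _, b, by simp⟩
  by_contra c
  exact (mul_lt_of_lt (aleph0_le_mk G) ((F.finite_toSet.lt_aleph0).trans_le (aleph0_le_mk G))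
    (not_le.1 c)).not_ge this

theorem pow_le {G : Type u} [AddCommGroup G] [τ : TopologicalSpace G] [IsTopologicalAddGroup G]
    [T2Space G] [Infinite G] (h : WinsSp G τ) {σ : Cardinal.{u}} (hσ : σ.IsStrongLimit)
    (hG : σ ≤ #G) : σ ^ ℵ₀ ≤ #G := by
  have hi := aleph0_le_mk G
  have hc : 𝔠 ≤ #G := perfect h fun U a b => Set.Infinite.nontrivial
    (infinite_coe_iff.1 (infinite_iff.2 (hi.trans (big_open h a b))))
  rcases hσ.aleph0_le.eq_or_lt with e | e
  · rwa [← e, aleph0_power_aleph0]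
  have key := prod_le h hσ e fun U a b => hG.trans (big_open h a b)
  have hI : ∀ x : σ.ord.ToType, #(Iic x) < σ := fun x => by
    rw [← Iio_insert]
    exact mk_insert_le.trans_lt (add_lt_of_lt e.le (mk_Iio_ord_toType x) (one_lt_aleph0.trans e))
  have k : ∀ b : ℕ → σ.ord.ToType, #{f : ℕ → σ.ord.ToType | ∀ n, f n ≤ b n} ≤ #G := fun b =>
    (mk_le_of_injective (f := fun f n => (⟨f.1 n, f.2 n⟩ : Iic (b n))) fun _ _ c =>
      Subtype.ext (funext fun n => congrArg Subtype.val (congrFun c n))).trans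
      (key (fun n => Iic (b n)) fun n => hI _)
  have e1 : σ ^ ℵ₀ = #(Set.univ : Set (ℕ → σ.ord.ToType)) := by simp
  rw [e1]
  by_cases c : ∃ a : ℕ → σ.ord.ToType, ∀ x, ∃ n, x ≤ a n
  · obtain ⟨a, ha⟩ := c
    choose r hr using ha
    refine (mk_le_mk_of_subset (t := ⋃ q ∈ (Set.univ : Set (ULift.{u} (ℕ → ℕ))),
      {f : ℕ → σ.ord.ToType | ∀ n, f n ≤ a (q.down n)}) fun f _ =>
        mem_iUnion₂.2 ⟨⟨fun n => r (f n)⟩, trivial, fun n => hr _⟩).trans
      ((mk_bU fun q _ => k _).trans ?_)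
    simpa using (mul_le_mul_left hc _).trans (mul_eq_self hi).le
  · push Not at c
    refine (mk_le_mk_of_subset (t := ⋃ q ∈ (Set.univ : Set σ.ord.ToType),
      {f : ℕ → σ.ord.ToType | ∀ n, f n ≤ q}) fun f _ =>
        let ⟨x, hx⟩ := c f; mem_iUnion₂.2 ⟨x, trivial, fun n => (hx n).le⟩).trans
      ((mk_bU fun q _ => k fun _ => q).trans ?_)
    simpa using (mul_le_mul_left hG _).trans (mul_eq_self hi).le

/-- The cardinal arithmetic behind the criterion. -/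
theorem cond_of {τ : Cardinal.{u}} (hτ : ℵ₀ ≤ τ)
    (h : ∀ σ : Cardinal.{u}, σ.IsStrongLimit → σ ≤ τ → σ ^ ℵ₀ ≤ τ) :
    ∃ κ : Cardinal.{u}, ℵ₀ ≤ κ ∧ κ ^ ℵ₀ ≤ τ ∧ τ ≤ 2 ^ κ := by
  obtain ⟨κ, h1, h2⟩ := wellFounded_lt.has_min {κ : Cardinal.{u} | ℵ₀ ≤ κ ∧ τ ≤ 2 ^ κ}
    ⟨τ, hτ, (cantor τ).le⟩
  refine ⟨κ, h1.1, ?_, h1.2⟩
  by_cases c : κ.IsStrongLimit
  · exact h κ c (not_lt.1 (h2 τ ⟨hτ, (cantor τ).le⟩))
  have : ∃ μ < κ, κ ≤ 2 ^ μ := by
    by_contra d
    push Not at d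
    exact c ⟨(aleph0_pos.trans_le h1.1).ne', fun μ hμ => d μ hμ⟩
  obtain ⟨μ, m1, m2⟩ := this
  have m3 : ℵ₀ ≤ μ := by
    by_contra d
    exact (isStrongLimit_aleph0.two_power_lt (not_le.1 d)).not_ge (h1.1.trans m2)
  refine (power_le_power_right m2).trans ?_
  rw [← power_mul, mul_eq_left m3 m3 aleph0_ne_zero]
  exact le_of_not_ge fun e => h2 μ ⟨m3, e⟩ m1

end Pool.Agent.Lib.MP_fe6d4f_gt.Sp
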