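import Pool.Agent.Lib.MP_fe6d4f_gt.Sp.Nec

/-!
Subgroups of a power that contain all points of countable support.
-/

namespace Pool.Agent.Lib.MP_fe6d4f_gt.Sp

open Set Cardinal Filter Topology

universe u

theorem WinsSsp.sp {X : Type*} {τ : TopologicalSpace X} (h : WinsSsp X τ) : WinsSp X τ := by
  obtain ⟨s, hs, hw⟩ := h
  refine ⟨s, hs, fun U hU => ?_⟩
  obtain ⟨x, φ, a, b⟩ := hw U hU
  refine ⟨x, fun V v1 v2 => ?_⟩
  have := (b.eventually (v1.mem_nhds v2)).frequently
  exact ((Nat.frequently_atTop_iff_infinite.1 this).image a.injective.injOn).mono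
    (by rintro _ ⟨n, h, rfl⟩; exact h)

theorem wins_of_emb {G I C : Type*} [AddCommGroup G] [AddCommGroup C] [TopologicalSpace C]
    [IsTopologicalAddGroup C] [CompactSpace C] [T2Space C] [FirstCountableTopology C]
    (φ : G →+ (I → C)) (h1 : Function.Injective φ)
    (h2 : ∀ f : I → C, (Function.support f).Countable → ∃ g, φ g = f) :
    ∃ τ : TopologicalSpace G, IsTopologicalAddGroup G ∧ T2Space G ∧ WinsSsp G τ := by
  classical
  let τ : TopologicalSpace G := TopologicalSpace.induced φ inferInstance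
  have hd : ∀ U : Set G, ∃ g : G, IsOpen U → U.Nonempty →
      g ∈ U ∧ (Function.support (φ g)).Countable := fun U => by
    by_cases c : IsOpen U ∧ U.Nonempty
    · obtain ⟨⟨W, w1, rfl⟩, g, hg⟩ := c
      obtain ⟨J, u, a, b⟩ := isOpen_pi_iff.1 w1 _ hg
      have hc : (Function.support fun i => if i ∈ J then φ g i else 0).Countable :=
        J.countable_toSet.mono fun i hi => by
          by_contra d
          exact hi (if_neg d)
      obtain ⟨g', e⟩ := h2 _ hc
      refine ⟨g', fun _ _ => ⟨b fun i hi => ?_, e ▸ hc⟩⟩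
      rw [e]
      simp only [if_pos (Finset.mem_coe.1 hi)]
      exact (a i hi).2
    · exact ⟨0, fun a b => (c ⟨a, b⟩).elim⟩
  choose s hs using hd
  refine ⟨τ, topologicalAddGroup_induced φ,
    T2Space.of_injective_continuous h1 continuous_induced_dom, s,
    fun U a b => (hs U a b).1, fun U hU => ?_⟩
  let J : Set I := ⋃ n, Function.support (φ (s (U n)))
  have hJ : J.Countable := countable_iUnion fun n => (hs _ (hU n).1 (hU n).2).2
  have := hJ.to_subtype
  obtain ⟨a, ψ, p1, p2⟩ := CompactSpace.tendsto_subseq fun n (j : J) => φ (s (U n)) j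
  obtain ⟨x, hx⟩ := h2 (fun i => if h : i ∈ J then a ⟨i, h⟩ else 0) (hJ.mono fun i hi => by
    by_contra d
    exact hi (dif_neg d))
  refine ⟨x, ψ, p1, ?_⟩
  rw [nhds_induced, tendsto_comap_iff, hx, tendsto_pi_nhds]
  intro i
  by_cases c : i ∈ J
  · rw [dif_pos c]
    exact tendsto_pi_nhds.1 p2 ⟨i, c⟩
  · rw [dif_neg c]
    refine tendsto_const_nhds.congr fun n => ?_
    by_contra d
    exact c (mem_iUnion.2 ⟨ψ n, fun e => d e.symm⟩)

theorem mk_sigma_le {I : Type u} {C : Type} [Zero C] [Countable C] [Infinite I] :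
    #{f : I → C | (Function.support f).Countable} ≤ #I ^ ℵ₀ := by
  classical
  let Φ : (ℕ → I × C) → I → C := fun a i =>
    if h : ∃ n, (a n).1 = i then (a (Nat.find h)).2 else 0
  refine (mk_le_mk_of_subset (t := range Φ) fun f hf => ?_).trans (?_)
  · obtain ⟨i0⟩ : Nonempty I := inferInstance
    obtain ⟨e, he⟩ := (hf.insert i0).exists_eq_range (insert_nonempty _ _)
    refine ⟨fun n => (e n, f (e n)), funext fun i => ?_⟩
    by_cases c : ∃ n, e n = i
    · exact (dif_pos c).trans (congrArg f (Nat.find_spec c))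
    · refine (dif_neg c).trans ?_
      by_contra d
      exact c (he ▸ Or.inr (fun k => d k.symm) : i ∈ range e)
  · refine mk_range_le.trans ?_
    have : lift.{u} #C ≤ #I := by
      refine le_trans ?_ (aleph0_le_mk I)
      simp
    simp only [mk_pi, prod_const, mk_prod, lift_uzero, mk_eq_aleph0, lift_aleph0]
    exact power_le_power_right ((mul_le_mul_right this _).trans (mul_eq_self (aleph0_le_mk I)).le)

theorem rank_eq_card {F : Type} [Field F] [Finite F] {V : Type u} [AddCommGroup V] [Module F V]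
    [Infinite V] : Module.rank F V = #V := by
  let b := Module.Free.chooseBasis F V
  have : Infinite (Module.Free.ChooseBasisIndex F V) := by
    by_contra c
    have := not_infinite_iff_finite.1 c
    have := Module.Finite.of_basis b
    have := Module.finite_of_finite F (M := V)
    exact not_finite V
  rw [← b.mk_eq_rank'', mk_congr b.repr.toEquiv, mk_finsupp_lift_of_infinite]
  simp only [lift_uzero]
  refine (max_eq_left (le_trans ?_ (aleph0_le_mk _))).symm
  simp

theorem suf_mod (F : Type) [Field F] [Finite F] {G : Type u} [AddCommGroup G] [Module F G]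
    {κ : Cardinal.{u}} (h0 : ℵ₀ ≤ κ) (h1 : κ ^ ℵ₀ ≤ #G) (h2 : #G ≤ 2 ^ κ) :
    ∃ τ : TopologicalSpace G, IsTopologicalAddGroup G ∧ T2Space G ∧ WinsSsp G τ := by
  let _ : TopologicalSpace F := ⊥
  have : DiscreteTopology F := ⟨rfl⟩
  have : IsTopologicalAddGroup F := {}
  have hi : ℵ₀ ≤ #G := h0.trans ((self_le_power _ one_le_aleph0).trans h1)
  have : Infinite G := infinite_iff.2 hi
  have : Infinite κ.out := infinite_iff.2 (by rwa [mk_out])
  have h3 : #G ≤ #(κ.out → F) := by
    refine h2.trans ?_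
    simp only [mk_pi, prod_const, lift_uzero, mk_out]
    refine power_le_power_right ?_
    simpa using (two_le_iff' (0 : F)).2 (exists_ne 0)
  obtain ⟨S, hS⟩ := le_mk_iff_exists_set.1 h3
  let T := S ∪ {f : κ.out → F | (Function.support f).Countable}
  have t1 : #T = #G := le_antisymm ((mk_union_le _ _).trans ((add_le_add hS.le
    (mk_sigma_le.trans (by rwa [mk_out]))).trans (add_eq_self hi).le))
    (hS ▸ mk_le_mk_of_subset subset_union_left)
  have : Infinite T := infinite_iff.2 (t1 ▸ hi)
  let H := Submodule.span F T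
  have : Infinite H := Infinite.of_injective _ (inclusion_injective Submodule.subset_span)
  have t2 : Module.rank F G = Module.rank F H := by
    refine le_antisymm ?_ ((rank_span_le T).trans (by rw [rank_eq_card, t1]))
    rw [rank_eq_card, rank_eq_card, ← t1]
    exact mk_le_mk_of_subset Submodule.subset_span
  obtain ⟨e⟩ := nonempty_linearEquiv_of_rank_eq t2
  refine wins_of_emb (H.subtype.comp e.toLinearMap).toAddMonoidHom
    (H.injective_subtype.comp e.injective) fun f hf => ?_
  exact ⟨e.symm ⟨f, Submodule.subset_span (Or.inr hf)⟩, by simp⟩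

theorem suf {p : ℕ} (hp : p.Prime) {G : Type u} [AddCommGroup G] (hG : ∀ g : G, p • g = 0)
    {κ : Cardinal.{u}} (h0 : ℵ₀ ≤ κ) (h1 : κ ^ ℵ₀ ≤ #G) (h2 : #G ≤ 2 ^ κ) :
    ∃ τ : TopologicalSpace G, IsTopologicalAddGroup G ∧ T2Space G ∧ WinsSsp G τ :=
  have := Fact.mk hp
  @suf_mod (ZMod p) _ _ G _ (AddCommGroup.zmodModule hG) κ h0 h1 h2

theorem suf_fin {G : Type*} [AddCommGroup G] [Finite G] :
    ∃ τ : TopologicalSpace G, IsTopologicalAddGroup G ∧ T2Space G ∧ WinsSsp G τ := by
  let _ : TopologicalSpace G := ⊥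
  have : DiscreteTopology G := ⟨rfl⟩
  have : IsTopologicalAddGroup G := {}
  exact wins_of_emb (I := Unit) (C := G) (AddMonoidHom.pi fun _ => AddMonoidHom.id G)
    (fun a b e => congrFun e ()) fun f _ => ⟨f (), rfl⟩

end Pool.Agent.Lib.MP_fe6d4f_gt.Sp
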