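import Mathlib

/-!
Small families of tests that no small set meets completely.
-/

namespace Pool.Agent.Lib.MP_fe6d4f_gt.Sp

open Set Cardinal Filter Topology

universe u

variable {X : Type u} [TopologicalSpace X]

theorem mk_bU {ι α : Type u} {s : Set ι} {A : ι → Set α} {c : Cardinal.{u}}
    (h : ∀ i ∈ s, #(A i) ≤ c) : #(⋃ i ∈ s, A i) ≤ #s * c := by
  refine (mk_biUnion_le A s).trans (mul_le_mul_right ?_ _)
  rcases isEmpty_or_nonempty s with e | e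
  · simp
  · exact ciSup_le fun i => h i i.2

theorem mk_nU {α : Type u} {A : ℕ → Set α} {c : Cardinal.{u}} (hc : ℵ₀ ≤ c)
    (h : ∀ i, #(A i) ≤ c) : #(⋃ i, A i) ≤ c := by
  have := mk_iUnion_le_lift A
  simp only [lift_uzero, mk_eq_aleph0, lift_aleph0] at this
  exact this.trans ((mul_le_mul_right (ciSup_le h) _).trans (mul_eq_right hc hc aleph0_ne_zero).le)

/-- The power of a cardinal. -/
noncomputable abbrev pw (c : Cardinal.{u}) : Cardinal.{u} := 2 ^ c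

/-- A test inside `W`. -/
def IsTest (W : Set X) (T : Set X × Set X) : Prop :=
  IsOpen T.1 ∧ T.1.Nonempty ∧ closure T.1 ⊆ T.2 ∧ IsOpen T.2 ∧ T.2 ⊆ W

theorem tests [T3Space X] {W : Set X} (hW : IsOpen W) {ρ : Cardinal.{u}} (hρ : ℵ₀ ≤ ρ)
    (h : pw (pw (pw ρ)) ≤ #W) : ∃ 𝒯 : Set (Set X × Set X), #𝒯 ≤ pw (pw (pw ρ)) ∧
      (∀ T ∈ 𝒯, IsTest W T) ∧ ∀ E : Set X, #E ≤ ρ → ∃ T ∈ 𝒯, Disjoint E T.2 := by
  classical
  obtain ⟨P, hP, hc⟩ := le_mk_iff_exists_subset.1 h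
  have hi : ℵ₀ ≤ pw (pw (pw ρ)) :=
    hρ.trans ((cantor _).le.trans ((cantor _).le.trans (cantor _).le))
  have : Infinite P := infinite_iff.2 (hc ▸ hi)
  have h1 : ∀ p q : X, ∃ a b : Set X, IsOpen a ∧ IsOpen b ∧ p ∈ a ∧ q ∈ b ∧
      (p ≠ q → Disjoint a b) := fun p q => by
    by_cases e : p = q
    · exact ⟨univ, univ, isOpen_univ, isOpen_univ, trivial, trivial, fun n => (n e).elim⟩
    · obtain ⟨a, b, h1, h2, h3, h4, h5⟩ := t2_separation e
      exact ⟨a, b, h1, h2, h3, h4, fun _ => h5⟩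
  choose a b ha hb pa qb hd using h1
  let O : P × Finset P → Set X := fun z => W ∩ ⋂ q ∈ z.2, (a z.1 q ∩ b q z.1)
  have hO : ∀ z, IsOpen (O z) := fun z =>
    hW.inter (isOpen_biInter_finset fun q _ => (ha _ _).inter (hb _ _))
  have hm : ∀ z, (z.1 : X) ∈ O z := fun z =>
    ⟨hP z.1.2, mem_iInter₂.2 fun q _ => ⟨pa _ _, qb _ _⟩⟩
  have h2 : ∀ z, ∃ V : Set X, IsOpen V ∧ (z.1 : X) ∈ V ∧ closure V ⊆ O z := fun z => by
    obtain ⟨t, t1, t2, t3⟩ := exists_mem_nhds_isClosed_subset ((hO z).mem_nhds (hm z))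
    exact ⟨interior t, isOpen_interior, mem_interior_iff_mem_nhds.2 t1,
      (closure_minimal interior_subset t2).trans t3⟩
  choose V V1 V2 V3 using h2
  refine ⟨range fun z => (V z, O z), mk_range_le.trans ?_, ?_, fun E hE => ?_⟩
  · rw [mk_prod, lift_id, lift_id, mk_finset_of_infinite, hc, mul_eq_self hi]
  · rintro _ ⟨z, rfl⟩
    exact ⟨V1 z, ⟨_, V2 z⟩, V3 z, hO z, inter_subset_left⟩
  by_contra hn
  have h3 : ∀ z, ∃ e ∈ E, e ∈ O z := fun z =>
    not_disjoint_iff.1 fun d => hn ⟨_, ⟨z, rfl⟩, d⟩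
  let Φ : P → Set (Set E) := fun p => {S | ∀ F, ∃ e ∈ S, (e : X) ∈ O (p, F)}
  have hΦ : Function.Injective Φ := fun p q e => by
    by_contra hpq
    have m1 : {e : E | (e : X) ∈ a p q} ∈ Φ p := fun F => by
      obtain ⟨e, e1, e2, e3⟩ := h3 (p, insert q F)
      refine ⟨⟨e, e1⟩, (mem_iInter₂.1 e3 q (Finset.mem_insert_self _ _)).1, e2,
        mem_iInter₂.2 fun r hr => mem_iInter₂.1 e3 r (Finset.mem_insert_of_mem hr)⟩
    rw [e] at m1
    obtain ⟨x, x1, -, x2⟩ := m1 {p}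
    exact disjoint_left.1 (hd p q fun k => hpq (Subtype.ext k)) x1
      (mem_iInter₂.1 x2 p (Finset.mem_singleton_self _)).2
  have := mk_le_of_injective hΦ
  rw [mk_set, mk_set, hc] at this
  exact (cantor _).not_ge (this.trans
    (power_le_power_left two_ne_zero (power_le_power_left two_ne_zero hE)))

end Pool.Agent.Lib.MP_fe6d4f_gt.Sp
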